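import Mathlib

/-!
# Schanuel's lemma in an abelian category, and projectivity of `P ⊗ Z` for representations
-/

universe v u

namespace Pool.Agent.X277.CD

open CategoryTheory CategoryTheory.Limits CategoryTheory.MonoidalCategory

section Schanuel

variable {C : Type u} [Category.{v} C] [Abelian C]

lemma half_schanuel {A' P P' B : C} (f : P ⟶ B) (i' : A' ⟶ P') (g : P' ⟶ B)
    (w : i' ≫ g = 0) (h : (ShortComplex.mk i' g w).ShortExact) [Projective P] :
    Nonempty (pullback f g ≅ A' ⊞ P) := by
  have hw : (0 : A' ⟶ P) ≫ f = i' ≫ g := by rw [w, zero_comp]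
  let S : ShortComplex C := ShortComplex.mk (pullback.lift (0 : A' ⟶ P) i' hw)
    (pullback.fst f g) (pullback.lift_fst _ _ hw)
  have hmono : Mono i' := h.mono_f
  have hepi : Epi g := h.epi_g
  have hm : Mono S.f := by
    have : Mono (S.f ≫ pullback.snd f g) := by
      have e : S.f ≫ pullback.snd f g = i' := pullback.lift_snd _ _ hw
      rw [e]; exact hmono
    exact mono_of_mono S.f (pullback.snd f g)
  have he : Epi S.g := by
    change Epi (pullback.fst f g)
    infer_instance
  have hex : S.Exact := by
    refine S.exact_of_f_is_kernel ?_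
    refine KernelFork.IsLimit.ofι' S.f S.zero ?_
    intro Z k hk
    have hk' : k ≫ pullback.fst f g = 0 := hk
    have e1 : (k ≫ pullback.snd f g) ≫ g = 0 := by
      rw [Category.assoc, ← pullback.condition, ← Category.assoc, hk', zero_comp]
    refine ⟨h.exact.lift (k ≫ pullback.snd f g) e1, ?_⟩
    apply pullback.hom_ext
    · rw [Category.assoc, hk']
      refine (congrArg (fun t => _ ≫ t) (pullback.lift_fst _ _ hw)).trans ?_
      exact comp_zero
    · rw [Category.assoc]
      refine (congrArg (fun t => _ ≫ t) (pullback.lift_snd _ _ hw)).trans ?_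
      exact h.exact.lift_f (k ≫ pullback.snd f g) e1
  have hS : S.ShortExact := { exact := hex, mono_f := hm, epi_g := he }
  have : Projective S.X₃ := by change Projective P; infer_instance
  exact ⟨hS.splittingOfProjective.isoBinaryBiproduct⟩

theorem schanuel {A P A' P' B : C} (i : A ⟶ P) (f : P ⟶ B) (w : i ≫ f = 0)
    (h : (ShortComplex.mk i f w).ShortExact)
    (i' : A' ⟶ P') (g : P' ⟶ B) (w' : i' ≫ g = 0)
    (h' : (ShortComplex.mk i' g w').ShortExact) [Projective P] [Projective P'] :
    Nonempty (A ⊞ P' ≅ A' ⊞ P) := by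
  obtain ⟨e1⟩ := half_schanuel f i' g w' h'
  obtain ⟨e2⟩ := half_schanuel g i f w h
  exact ⟨e2.symm ≪≫ pullbackSymmetry g f ≪≫ e1⟩

end Schanuel

section RepProj

variable {k : Type} [Field k] {G : Type} [Group G]

instance ihom_preservesEpi (Z : Rep.{0} k G) : (ihom Z).PreservesEpimorphisms where
  preserves {X Y} f hf := by
    rw [Rep.epi_iff_surjective] at hf ⊢
    intro φ
    obtain ⟨s, hs⟩ := f.hom.toLinearMap.exists_rightInverse_of_surjective
      (LinearMap.range_eq_top.2 hf)
    refine ⟨(s ∘ₗ (show Z.V →ₗ[k] Y.V from φ) : Z.V →ₗ[k] X.V), ?_⟩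
    refine LinearMap.ext (f := ?_) (g := (show Z.V →ₗ[k] Y.V from φ)) ?_
    intro z
    exact LinearMap.congr_fun hs _

theorem projective_tensor_left (Z P : Rep.{0} k G) [hP : Projective P] : Projective (Z ⊗ P) :=
  (ihom.adjunction Z).map_projective P hP

theorem projective_tensor_right (P Z : Rep.{0} k G) [hP : Projective P] : Projective (P ⊗ Z) :=
  Projective.of_iso (β_ Z P) (projective_tensor_left Z P)

end RepProj

end Pool.Agent.X277.CD
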