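import Mathlib
import Pool.Agent.X277.CD.Cat

/-!
# Representations of the Klein four group in characteristic two and the core dimension
-/

namespace Pool.Agent.X277.CD

open CategoryTheory CategoryTheory.Limits CategoryTheory.MonoidalCategory

/-- field with two elements -/
abbrev K : Type := ZMod 2
/-- cyclic group of order two -/
abbrev C2 : Type := Multiplicative (ZMod 2)
/-- Klein four group -/
abbrev V4 : Type := C2 × C2

/-- first generator -/
def ga : V4 := (Multiplicative.ofAdd 1, 1)
/-- second generator -/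
def gb : V4 := (1, Multiplicative.ofAdd 1)

lemma ga_sq : ga * ga = 1 := by decide
lemma gb_sq : gb * gb = 1 := by decide
lemma ga_gb : ga * gb = gb * ga := by decide
lemma V4_cases : ∀ g : V4, g = 1 ∨ g = ga ∨ g = gb ∨ g = ga * gb := by decide

lemma two_smul_zero {V : Type*} [AddCommGroup V] [Module K V] (v : V) : v + v = 0 := by
  rw [← two_smul K v, show (2 : K) = 0 from rfl, zero_smul]

lemma add_self_end {V : Type*} [AddCommGroup V] [Module K V] (f : Module.End K V) :
    f + f = 0 := by
  ext v; exact two_smul_zero _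

/-- the operator `g_a - 1` -/
noncomputable def xo (X : Rep.{0} K V4) : Module.End K X.V := 1 + X.ρ ga
/-- the operator `g_b - 1` -/
noncomputable def yo (X : Rep.{0} K V4) : Module.End K X.V := 1 + X.ρ gb

lemma rho_ga (X : Rep.{0} K V4) : X.ρ ga = 1 + xo X := by
  rw [xo, ← add_assoc, add_self_end, zero_add]
lemma rho_gb (X : Rep.{0} K V4) : X.ρ gb = 1 + yo X := by
  rw [yo, ← add_assoc, add_self_end, zero_add]

lemma xo_sq (X : Rep.{0} K V4) : xo X * xo X = 0 := by
  have h : X.ρ ga * X.ρ ga = 1 := by rw [← map_mul, ga_sq, map_one]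
  rw [xo, mul_add, add_mul, add_mul, h, mul_one, one_mul, mul_one]
  have : (1 : Module.End K X.V) + X.ρ ga + (X.ρ ga + 1) = (1 + X.ρ ga) + (1 + X.ρ ga) := by abel
  rw [this, add_self_end]

lemma yo_sq (X : Rep.{0} K V4) : yo X * yo X = 0 := by
  have h : X.ρ gb * X.ρ gb = 1 := by rw [← map_mul, gb_sq, map_one]
  rw [yo, mul_add, add_mul, add_mul, h, mul_one, one_mul, mul_one]
  have : (1 : Module.End K X.V) + X.ρ gb + (X.ρ gb + 1) = (1 + X.ρ gb) + (1 + X.ρ gb) := by abel
  rw [this, add_self_end]

lemma xo_yo (X : Rep.{0} K V4) : xo X * yo X = yo X * xo X := by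
  have h : X.ρ ga * X.ρ gb = X.ρ gb * X.ρ ga := by rw [← map_mul, ga_gb, map_mul]
  rw [xo, yo, mul_add, add_mul, add_mul, mul_add, add_mul, add_mul, h]
  simp only [mul_one, one_mul]
  abel

/-- the norm element `x y` -/
noncomputable def no (X : Rep.{0} K V4) : Module.End K X.V := xo X * yo X

lemma hom_xo {X Y : Rep.{0} K V4} (f : X ⟶ Y) (v : X.V) : f.hom (xo X v) = xo Y (f.hom v) := by
  simp only [xo, LinearMap.add_apply, Module.End.one_apply, map_add, Rep.hom_comm_apply]

lemma hom_yo {X Y : Rep.{0} K V4} (f : X ⟶ Y) (v : X.V) : f.hom (yo X v) = yo Y (f.hom v) := by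
  simp only [yo, LinearMap.add_apply, Module.End.one_apply, map_add, Rep.hom_comm_apply]

lemma hom_no {X Y : Rep.{0} K V4} (f : X ⟶ Y) (v : X.V) : f.hom (no X v) = no Y (f.hom v) := by
  simp only [no, Module.End.mul_apply, hom_xo, hom_yo]

/-- An equivariant map from a linear map commuting with the two nilpotent operators. -/
noncomputable def mkHom {X Y : Rep.{0} K V4} (f : X.V →ₗ[K] Y.V)
    (hx : ∀ v, f (xo X v) = xo Y (f v)) (hy : ∀ v, f (yo X v) = yo Y (f v)) : X ⟶ Y :=
  Rep.ofHom (ρ := X.ρ) (σ := Y.ρ) ⟨f, by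
    intro g
    have ha : ∀ v, f (X.ρ ga v) = Y.ρ ga (f v) := by
      intro v
      rw [rho_ga, rho_ga]
      simp [hx]
    have hb : ∀ v, f (X.ρ gb v) = Y.ρ gb (f v) := by
      intro v
      rw [rho_gb, rho_gb]
      simp [hy]
    ext v
    rcases V4_cases g with rfl | rfl | rfl | rfl
    · simp
    · exact ha v
    · exact hb v
    · simp [ha, hb]⟩

lemma mkHom_apply {X Y : Rep.{0} K V4} (f : X.V →ₗ[K] Y.V)
    (hx : ∀ v, f (xo X v) = xo Y (f v)) (hy : ∀ v, f (yo X v) = yo Y (f v)) (v : X.V) :
    (mkHom f hx hy).hom v = f v := rfl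

/-- helper: homomorphism from `C_2` determined by an involution -/
noncomputable def homC2 {V : Type} [AddCommGroup V] [Module K V] (x : Module.End K V)
    (hx : x * x = 0) : C2 →* Module.End K V where
  toFun z := if z = 1 then 1 else 1 + x
  map_one' := by simp
  map_mul' := by
    have key : (1 + x) * (1 + x) = 1 := by
      rw [mul_add, add_mul, add_mul, hx, mul_one, one_mul, mul_one, add_zero, add_assoc,
        add_self_end, add_zero]
    have h : ∀ z : C2, z = 1 ∨ z = Multiplicative.ofAdd 1 := by decide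
    have h0 : (Multiplicative.ofAdd (1 : ZMod 2)) ≠ 1 := by decide
    have h1 : (Multiplicative.ofAdd (1 : ZMod 2)) * Multiplicative.ofAdd (1 : ZMod 2) = 1 := by
      decide
    intro z w
    rcases h z with rfl | rfl <;> rcases h w with rfl | rfl
    · simp
    · simp
    · simp
    · rw [h1, if_pos rfl, if_neg h0, key]

/-- The representation given by two commuting operators of square zero. -/
noncomputable def mkRho {V : Type} [AddCommGroup V] [Module K V] (x y : Module.End K V)
    (hx : x * x = 0) (hy : y * y = 0) (hxy : x * y = y * x) : Representation K V4 V :=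
  MonoidHom.noncommCoprod (homC2 x hx) (homC2 y hy) (by
    intro m n
    have : Commute (1 + x) (1 + y) := by
      have h : Commute x y := hxy
      exact (Commute.one_left _).add_left ((Commute.one_right _).add_right h)
    simp only [homC2, MonoidHom.coe_mk, OneHom.coe_mk]
    split_ifs
    · exact Commute.one_left _
    · exact Commute.one_left _
    · exact Commute.one_right _
    · exact this)

/-- bundled version -/
noncomputable abbrev mkRep {V : Type} [AddCommGroup V] [Module K V] (x y : Module.End K V)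
    (hx : x * x = 0) (hy : y * y = 0) (hxy : x * y = y * x) : Rep.{0} K V4 :=
  Rep.of (mkRho x y hx hy hxy)

lemma xo_mkRep {V : Type} [AddCommGroup V] [Module K V] (x y : Module.End K V)
    (hx : x * x = 0) (hy : y * y = 0) (hxy : x * y = y * x) :
    xo (mkRep x y hx hy hxy) = x := by
  have h0 : (Multiplicative.ofAdd (1 : ZMod 2)) ≠ 1 := by decide
  have : (mkRep x y hx hy hxy).ρ ga = 1 + x := by
    change mkRho x y hx hy hxy ga = 1 + x
    simp only [mkRho, MonoidHom.noncommCoprod_apply, ga, homC2, MonoidHom.coe_mk, OneHom.coe_mk]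
    rw [if_neg h0, if_pos trivial, mul_one]
  rw [xo, this, ← add_assoc, add_self_end, zero_add]

lemma yo_mkRep {V : Type} [AddCommGroup V] [Module K V] (x y : Module.End K V)
    (hx : x * x = 0) (hy : y * y = 0) (hxy : x * y = y * x) :
    yo (mkRep x y hx hy hxy) = y := by
  have h0 : (Multiplicative.ofAdd (1 : ZMod 2)) ≠ 1 := by decide
  have : (mkRep x y hx hy hxy).ρ gb = 1 + y := by
    change mkRho x y hx hy hxy gb = 1 + y
    simp only [mkRho, MonoidHom.noncommCoprod_apply, gb, homC2, MonoidHom.coe_mk, OneHom.coe_mk]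
    rw [if_neg h0, if_pos trivial, one_mul]
  rw [yo, this, ← add_assoc, add_self_end, zero_add]

/-- The candidate for the core dimension, as an integer. -/
noncomputable def cd (X : Rep.{0} K V4) : ℤ :=
  (Module.finrank K X.V : ℤ) - 4 * (Module.finrank K (LinearMap.range (no X)) : ℤ)

lemma cd_iso {X Y : Rep.{0} K V4} (e : X ≅ Y) : cd X = cd Y := by
  let L : X.V ≃ₗ[K] Y.V := LinearEquiv.ofBijective e.hom.hom.toLinearMap
    ⟨fun a b h => by
      have := congrArg (fun t => e.inv.hom t) h
      simpa using this, fun b => ⟨e.inv.hom b, by simp⟩⟩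
  have h1 : Module.finrank K X.V = Module.finrank K Y.V := L.finrank_eq
  have h2 : Module.finrank K (LinearMap.range (no X)) = Module.finrank K (LinearMap.range (no Y)) := by
    have : (LinearMap.range (no X)).map (L : X.V →ₗ[K] Y.V) = LinearMap.range (no Y) := by
      ext w
      simp only [Submodule.mem_map, LinearMap.mem_range]
      constructor
      · rintro ⟨_, ⟨v, rfl⟩, rfl⟩
        exact ⟨L v, (hom_no e.hom v).symm⟩
      · rintro ⟨v, rfl⟩
        refine ⟨no X (L.symm v), ⟨_, rfl⟩, ?_⟩
        have := hom_no e.hom (L.symm v)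
        refine this.trans ?_
        congr 1
        exact L.apply_symm_apply v
    rw [← this]
    exact (L.submoduleMap _).finrank_eq
  rw [cd, cd, h1, h2]

lemma finrank_range_prodMap {V W : Type} [AddCommGroup V] [Module K V] [AddCommGroup W]
    [Module K W] [FiniteDimensional K V] [FiniteDimensional K W]
    (f : V →ₗ[K] V) (g : W →ₗ[K] W) :
    Module.finrank K (LinearMap.range (f.prodMap g)) =
      Module.finrank K (LinearMap.range f) + Module.finrank K (LinearMap.range g) := by
  have h : LinearMap.range (f.prodMap g) =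
      LinearMap.range ((LinearMap.range f).subtype.prodMap (LinearMap.range g).subtype) := by
    rw [LinearMap.range_prodMap, LinearMap.range_prodMap]
    simp
  rw [h, LinearMap.finrank_range_of_inj, Module.finrank_prod]
  intro a b hab
  simp only [LinearMap.prodMap_apply, Submodule.subtype_apply, Prod.mk.injEq] at hab
  exact Prod.ext (Subtype.ext hab.1) (Subtype.ext hab.2)

/-- the underlying space of a biproduct -/
noncomputable def biprodEquiv (X Y : Rep.{0} K V4) : (X ⊞ Y).V ≃ₗ[K] X.V × Y.V where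
  toFun v := ((biprod.fst : X ⊞ Y ⟶ X).hom v, (biprod.snd : X ⊞ Y ⟶ Y).hom v)
  map_add' a b := by simp
  map_smul' r a := by simp
  invFun p := (biprod.inl : X ⟶ X ⊞ Y).hom p.1 + (biprod.inr : Y ⟶ X ⊞ Y).hom p.2
  left_inv v := congrArg (fun t : X ⊞ Y ⟶ X ⊞ Y => t.hom v) (biprod.total (X := X) (Y := Y))
  right_inv p := by
    have h1 : ∀ z, (biprod.fst : X ⊞ Y ⟶ X).hom ((biprod.inl : X ⟶ X ⊞ Y).hom z) = z :=
      fun z => congrArg (fun t : X ⟶ X => t.hom z) (biprod.inl_fst (X := X) (Y := Y))
    have h2 : ∀ z, (biprod.snd : X ⊞ Y ⟶ Y).hom ((biprod.inr : Y ⟶ X ⊞ Y).hom z) = z :=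
      fun z => congrArg (fun t : Y ⟶ Y => t.hom z) (biprod.inr_snd (X := X) (Y := Y))
    have h3 : ∀ z, (biprod.fst : X ⊞ Y ⟶ X).hom ((biprod.inr : Y ⟶ X ⊞ Y).hom z) = 0 :=
      fun z => congrArg (fun t : Y ⟶ X => t.hom z) (biprod.inr_fst (X := X) (Y := Y))
    have h4 : ∀ z, (biprod.snd : X ⊞ Y ⟶ Y).hom ((biprod.inl : X ⟶ X ⊞ Y).hom z) = 0 :=
      fun z => congrArg (fun t : X ⟶ Y => t.hom z) (biprod.inl_snd (X := X) (Y := Y))
    ext <;> simp [h1, h2, h3, h4]

lemma cd_biprod (X Y : Rep.{0} K V4) [FiniteDimensional K X.V] [FiniteDimensional K Y.V] :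
    cd (X ⊞ Y) = cd X + cd Y := by
  have h1 : Module.finrank K (X ⊞ Y).V = Module.finrank K X.V + Module.finrank K Y.V := by
    rw [(biprodEquiv X Y).finrank_eq, Module.finrank_prod]
  have h2 : Module.finrank K (LinearMap.range (no (X ⊞ Y))) =
      Module.finrank K (LinearMap.range (no X)) + Module.finrank K (LinearMap.range (no Y)) := by
    rw [← finrank_range_prodMap]
    have : (LinearMap.range (no (X ⊞ Y))).map (biprodEquiv X Y : _ →ₗ[K] _) =
        LinearMap.range ((no X).prodMap (no Y)) := by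
      have hc : ∀ v, (no X).prodMap (no Y) (biprodEquiv X Y v) = biprodEquiv X Y (no (X ⊞ Y) v) := by
        intro v
        exact Prod.ext (hom_no _ v).symm (hom_no _ v).symm
      ext w
      simp only [Submodule.mem_map, LinearMap.mem_range]
      constructor
      · rintro ⟨_, ⟨v, rfl⟩, rfl⟩
        exact ⟨biprodEquiv X Y v, hc v⟩
      · rintro ⟨v, rfl⟩
        refine ⟨no (X ⊞ Y) ((biprodEquiv X Y).symm v), ⟨_, rfl⟩, ?_⟩
        refine (hc _).symm.trans ?_
        rw [LinearEquiv.apply_symm_apply]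
    rw [← this]
    exact ((biprodEquiv X Y).submoduleMap _).finrank_eq
  rw [cd, cd, cd, h1, h2]
  push_cast
  ring

lemma two_rank_le {V : Type} [AddCommGroup V] [Module K V] [FiniteDimensional K V]
    (f : Module.End K V) (h : f * f = 0) :
    2 * Module.finrank K (LinearMap.range f) ≤ Module.finrank K V := by
  have h1 := f.finrank_range_add_finrank_ker
  have h2 : LinearMap.range f ≤ LinearMap.ker f := by
    rintro _ ⟨v, rfl⟩
    exact LinearMap.congr_fun h v
  have := Submodule.finrank_mono h2
  omega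

lemma le_two_ker {V : Type} [AddCommGroup V] [Module K V] [FiniteDimensional K V]
    (f : Module.End K V) (h : f * f = 0) :
    Module.finrank K V ≤ 2 * Module.finrank K (LinearMap.ker f) := by
  have h1 := f.finrank_range_add_finrank_ker
  have h2 : LinearMap.range f ≤ LinearMap.ker f := by
    rintro _ ⟨v, rfl⟩
    exact LinearMap.congr_fun h v
  have := Submodule.finrank_mono h2
  omega

lemma cd_nonneg (X : Rep.{0} K V4) [FiniteDimensional K X.V] : 0 ≤ cd X := by
  set U := LinearMap.range (yo X) with hU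
  have hinv : ∀ u ∈ U, xo X u ∈ U := by
    rintro _ ⟨v, rfl⟩
    exact ⟨xo X v, (LinearMap.congr_fun (xo_yo X) v).symm⟩
  have h1 : 2 * Module.finrank K U ≤ Module.finrank K X.V := two_rank_le (yo X) (yo_sq X)
  have h2 := two_rank_le ((xo X).restrict hinv) (by
    ext ⟨u, hu⟩
    exact LinearMap.congr_fun (xo_sq X) u)
  have h3 : Module.finrank K (LinearMap.range ((xo X).restrict hinv)) =
      Module.finrank K (LinearMap.range (no X)) := by
    have : (LinearMap.range ((xo X).restrict hinv)).map U.subtype = LinearMap.range (no X) := by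
      ext w
      simp only [Submodule.mem_map, LinearMap.mem_range]
      constructor
      · rintro ⟨_, ⟨⟨_, ⟨v, rfl⟩⟩, rfl⟩, rfl⟩
        exact ⟨v, rfl⟩
      · rintro ⟨v, rfl⟩
        exact ⟨_, ⟨⟨yo X v, ⟨v, rfl⟩⟩, rfl⟩, rfl⟩
    rw [← this]
    exact (LinearEquiv.finrank_eq (Submodule.equivMapOfInjective U.subtype
      (Submodule.injective_subtype U) _))
  rw [cd, ← h3]
  have h4 : 4 * Module.finrank K (LinearMap.range ((xo X).restrict hinv)) ≤
    Module.finrank K X.V := by omega
  have h5 : (4 * Module.finrank K (LinearMap.range ((xo X).restrict hinv)) : ℤ) ≤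
    Module.finrank K X.V := by exact_mod_cast h4
  linarith

/-- `x` on the free module `A⁴` with basis `1, x, y, xy`. -/
def Fx (A : Type) [AddCommGroup A] [Module K A] : Module.End K (A × A × A × A) where
  toFun v := (0, v.1, 0, v.2.2.1)
  map_add' a b := by simp
  map_smul' r a := by simp

/-- `y` on the free module `A⁴` with basis `1, x, y, xy`. -/
def Fy (A : Type) [AddCommGroup A] [Module K A] : Module.End K (A × A × A × A) where
  toFun v := (0, 0, v.1, v.2.1)
  map_add' a b := by simp
  map_smul' r a := by simp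

/-- The free representation `k V_4 ⊗ A`. -/
noncomputable def FR (A : Type) [AddCommGroup A] [Module K A] : Rep.{0} K V4 :=
  mkRep (Fx A) (Fy A) (by ext <;> simp [Fx]) (by ext <;> simp [Fy]) (by ext <;> simp [Fx, Fy])

/-- elements of the free representation -/
def fm {A : Type} [AddCommGroup A] [Module K A] (p q r s : A) : (FR A).V :=
  (show A × A × A × A from (p, q, r, s))

lemma fm_surj {A : Type} [AddCommGroup A] [Module K A] (v : (FR A).V) :
    ∃ p q r s : A, v = fm p q r s := ⟨v.1, v.2.1, v.2.2.1, v.2.2.2, rfl⟩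

lemma fm_add {A : Type} [AddCommGroup A] [Module K A] (p q r s p' q' r' s' : A) :
    fm p q r s + fm p' q' r' s' = fm (p + p') (q + q') (r + r') (s + s') := rfl

lemma fm_inj {A : Type} [AddCommGroup A] [Module K A] {p q r s p' q' r' s' : A}
    (h : fm p q r s = fm p' q' r' s') : p = p' ∧ q = q' ∧ r = r' ∧ s = s' := by
  have h' : ((p, q, r, s) : A × A × A × A) = (p', q', r', s') := h
  simpa using h'

lemma fm_zero {A : Type} [AddCommGroup A] [Module K A] : (fm 0 0 0 0 : (FR A).V) = 0 := rfl

lemma xo_fm {A : Type} [AddCommGroup A] [Module K A] (p q r s : A) :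
    xo (FR A) (fm p q r s) = fm 0 p 0 r := LinearMap.congr_fun (xo_mkRep _ _ _ _ _) _
lemma yo_fm {A : Type} [AddCommGroup A] [Module K A] (p q r s : A) :
    yo (FR A) (fm p q r s) = fm 0 0 p q := LinearMap.congr_fun (yo_mkRep _ _ _ _ _) _
lemma no_fm {A : Type} [AddCommGroup A] [Module K A] (p q r s : A) :
    no (FR A) (fm p q r s) = fm 0 0 0 p := by
  rw [no, Module.End.mul_apply, yo_fm, xo_fm]

/-- the linear map underlying `liftFR` -/
noncomputable def liftLin {A : Type} [AddCommGroup A] [Module K A] {X : Rep.{0} K V4}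
    (φ : A →ₗ[K] X.V) : (A × A × A × A) →ₗ[K] X.V :=
  { toFun := fun v => φ v.1 + xo X (φ v.2.1) + yo X (φ v.2.2.1) + no X (φ v.2.2.2)
    map_add' := by intro a b; simp; abel
    map_smul' := by intro r a; simp }

/-- the equivariant map `k V_4 ⊗ A → X` extending a linear map `A → X` -/
noncomputable def liftFR {A : Type} [AddCommGroup A] [Module K A] {X : Rep.{0} K V4}
    (φ : A →ₗ[K] X.V) : FR A ⟶ X :=
  mkHom (X := FR A) (Y := X) (liftLin φ)
    (by
      intro v
      obtain ⟨p, q, r, s, rfl⟩ := fm_surj v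
      have h1 : ∀ w, xo X (xo X w) = 0 := fun w => LinearMap.congr_fun (xo_sq X) w
      have h2 : ∀ w, yo X (yo X w) = 0 := fun w => LinearMap.congr_fun (yo_sq X) w
      have h3 : ∀ w, yo X (xo X w) = xo X (yo X w) :=
        fun w => (LinearMap.congr_fun (xo_yo X) w).symm
      rw [xo_fm]
      change φ 0 + xo X (φ p) + yo X (φ 0) + no X (φ r)
        = xo X (φ p + xo X (φ q) + yo X (φ r) + no X (φ s))
      simp only [map_add, map_zero, no, Module.End.mul_apply, h1, h2, h3]
      abel)
    (by
      intro v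
      obtain ⟨p, q, r, s, rfl⟩ := fm_surj v
      have h1 : ∀ w, xo X (xo X w) = 0 := fun w => LinearMap.congr_fun (xo_sq X) w
      have h2 : ∀ w, yo X (yo X w) = 0 := fun w => LinearMap.congr_fun (yo_sq X) w
      have h3 : ∀ w, yo X (xo X w) = xo X (yo X w) :=
        fun w => (LinearMap.congr_fun (xo_yo X) w).symm
      rw [yo_fm]
      change φ 0 + xo X (φ 0) + yo X (φ p) + no X (φ q)
        = yo X (φ p + xo X (φ q) + yo X (φ r) + no X (φ s))
      simp only [map_add, map_zero, no, Module.End.mul_apply, h2, h3]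
      abel)

lemma liftFR_fm {A : Type} [AddCommGroup A] [Module K A] {X : Rep.{0} K V4}
    (φ : A →ₗ[K] X.V) (p q r s : A) :
    (liftFR φ).hom (fm p q r s) = φ p + xo X (φ q) + yo X (φ r) + no X (φ s) := rfl

lemma FR_hom_ext {A : Type} [AddCommGroup A] [Module K A] {X : Rep.{0} K V4}
    (f g : FR A ⟶ X) (h : ∀ a : A, f.hom (fm a 0 0 0) = g.hom (fm a 0 0 0)) : f = g := by
  ext v
  obtain ⟨p, q, r, s, rfl⟩ := fm_surj v
  have e : (fm p q r s) = fm p 0 0 0 + xo (FR A) (fm q 0 0 0)
      + yo (FR A) (fm r 0 0 0) + no (FR A) (fm s 0 0 0) := by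
    rw [xo_fm, yo_fm, no_fm, fm_add, fm_add, fm_add]
    simp
  have key : ∀ f : FR A ⟶ X, f.hom (fm p q r s) =
      f.hom (fm p 0 0 0) + xo X (f.hom (fm q 0 0 0))
      + yo X (f.hom (fm r 0 0 0))
      + no X (f.hom (fm s 0 0 0)) := by
    intro f
    rw [← hom_xo, ← hom_yo, ← hom_no, ← map_add, ← map_add, ← map_add, ← e]
  exact (key f).trans (((by rw [h, h, h, h] : _ = _)).trans (key g).symm)

/-- the inclusion `A → F(A)` -/
noncomputable def incl (A : Type) [AddCommGroup A] [Module K A] : A →ₗ[K] (FR A).V where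
  toFun a := fm a 0 0 0
  map_add' a b := by rw [fm_add]; simp
  map_smul' r a := by
    change fm (r • a) 0 0 0 = r • fm a 0 0 0
    change ((r • a, 0, 0, 0) : A × A × A × A) = r • ((a, 0, 0, 0) : A × A × A × A)
    simp

instance FR_projective (A : Type) [AddCommGroup A] [Module K A] : Projective (FR A) where
  factors {E X} f e he := by
    rw [Rep.epi_iff_surjective] at he
    obtain ⟨s, hs⟩ := e.hom.toLinearMap.exists_rightInverse_of_surjective
      (LinearMap.range_eq_top.2 he)
    have hs' : ∀ z, e.hom (s z) = z := LinearMap.congr_fun hs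
    let φ : A →ₗ[K] E.V := s ∘ₗ f.hom.toLinearMap ∘ₗ incl A
    refine ⟨liftFR φ, FR_hom_ext _ _ ?_⟩
    intro a
    have h1 : (liftFR φ).hom (fm a 0 0 0) = φ a := by
      rw [liftFR_fm]; simp
    have h2 : (liftFR φ ≫ e).hom (fm a 0 0 0) = e.hom ((liftFR φ).hom (fm a 0 0 0)) := rfl
    rw [h2, h1]
    exact hs' _

lemma proj_invariants (P : Rep.{0} K V4) [Projective P] (v : P.V) (hx : xo P v = 0)
    (hy : yo P v = 0) : ∃ w, no P w = v := by
  have he : Epi (liftFR (LinearMap.id (R := K) (M := P.V))) := by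
    rw [Rep.epi_iff_surjective]
    intro v
    refine ⟨fm v 0 0 0, ?_⟩
    rw [liftFR_fm]; simp
  let s := Projective.factorThru (𝟙 P) (liftFR (LinearMap.id (R := K) (M := P.V)))
  have hs : s ≫ liftFR (LinearMap.id (R := K) (M := P.V)) = 𝟙 P := Projective.factorThru_comp _ _
  have h1 : xo (FR P.V) (s.hom v) = 0 := by rw [← hom_xo, hx, map_zero]
  have h2 : yo (FR P.V) (s.hom v) = 0 := by rw [← hom_yo, hy, map_zero]
  have h3 : (liftFR (LinearMap.id (R := K) (M := P.V))).hom (s.hom v) = v :=
    congrArg (fun t : P ⟶ P => t.hom v) hs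
  obtain ⟨p, q, r, t, hw⟩ := fm_surj (s.hom v)
  rw [hw] at h1 h2 h3
  rw [xo_fm, ← fm_zero] at h1
  rw [yo_fm, ← fm_zero] at h2
  obtain ⟨-, e1, -, e2⟩ := fm_inj h1
  obtain ⟨-, -, -, e3⟩ := fm_inj h2
  subst e1 e2 e3
  refine ⟨t, ?_⟩
  rw [liftFR_fm] at h3
  simpa using h3

lemma cd_projective (P : Rep.{0} K V4) [FiniteDimensional K P.V] [Projective P] : cd P = 0 := by
  refine le_antisymm ?_ (cd_nonneg P)
  set U := LinearMap.ker (yo P) with hU
  have hinv : ∀ u ∈ U, xo P u ∈ U := by
    intro v hv
    have : yo P (xo P v) = xo P (yo P v) := (LinearMap.congr_fun (xo_yo P) v).symm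
    rw [hU, LinearMap.mem_ker, this, LinearMap.mem_ker.1 hv, map_zero]
  have h1 : Module.finrank K P.V ≤ 2 * Module.finrank K U := le_two_ker (yo P) (yo_sq P)
  have h2 := le_two_ker ((xo P).restrict hinv) (by
    ext ⟨u, hu⟩
    exact LinearMap.congr_fun (xo_sq P) u)
  have h3 : Module.finrank K (LinearMap.ker ((xo P).restrict hinv)) ≤
      Module.finrank K (LinearMap.range (no P)) := by
    have : (LinearMap.ker ((xo P).restrict hinv)).map U.subtype ≤ LinearMap.range (no P) := by
      rintro _ ⟨⟨w, hw⟩, h, rfl⟩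
      have h' : xo P w = 0 := congrArg Subtype.val h
      exact proj_invariants P w h' hw
    have h5 := Submodule.finrank_mono this
    have h4 := (LinearEquiv.finrank_eq (Submodule.equivMapOfInjective U.subtype
      (Submodule.injective_subtype U) (LinearMap.ker ((xo P).restrict hinv))))
    omega
  rw [cd]
  have h4 : Module.finrank K P.V ≤ 4 * Module.finrank K (LinearMap.range (no P)) := by omega
  have h5 : (Module.finrank K P.V : ℤ) ≤ 4 * Module.finrank K (LinearMap.range (no P)) := by
    exact_mod_cast h4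
  linarith

end Pool.Agent.X277.CD
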