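import Mathlib
import Pool.Agent.X277.CD.V4

/-!
# Existence of the decomposition `X = core ⊕ projective`
-/

namespace Pool.Agent.X277.CD

open CategoryTheory CategoryTheory.Limits CategoryTheory.MonoidalCategory

/-- the equivariant map `X → k V_4 ⊗ A` attached to a linear map `X → A` -/
noncomputable def colift {A : Type} [AddCommGroup A] [Module K A] {X : Rep.{0} K V4}
    (l : X.V →ₗ[K] A) : X ⟶ FR A :=
  mkHom (X := X) (Y := FR A)
    (show X.V →ₗ[K] (A × A × A × A) from
      (l ∘ₗ no X).prod ((l ∘ₗ yo X).prod ((l ∘ₗ xo X).prod l)))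
    (by
      intro v
      have h1 : ∀ w, xo X (xo X w) = 0 := fun w => LinearMap.congr_fun (xo_sq X) w
      have h3 : ∀ w, yo X (xo X w) = xo X (yo X w) :=
        fun w => (LinearMap.congr_fun (xo_yo X) w).symm
      change fm (l (no X (xo X v))) (l (yo X (xo X v))) (l (xo X (xo X v))) (l (xo X v)) =
        xo (FR A) (fm (l (no X v)) (l (yo X v)) (l (xo X v)) (l v))
      rw [xo_fm]
      simp only [no, Module.End.mul_apply, h1, h3, map_zero])
    (by
      intro v
      have h1 : ∀ w, yo X (yo X w) = 0 := fun w => LinearMap.congr_fun (yo_sq X) w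
      change fm (l (no X (yo X v))) (l (yo X (yo X v))) (l (xo X (yo X v))) (l (yo X v)) =
        yo (FR A) (fm (l (no X v)) (l (yo X v)) (l (xo X v)) (l v))
      rw [yo_fm]
      simp only [no, Module.End.mul_apply, h1, map_zero])

lemma colift_apply {A : Type} [AddCommGroup A] [Module K A] {X : Rep.{0} K V4}
    (l : X.V →ₗ[K] A) (v : X.V) :
    (colift l).hom v = fm (l (no X v)) (l (yo X v)) (l (xo X v)) (l v) := rfl

lemma finrank_FR (A : Type) [AddCommGroup A] [Module K A] [FiniteDimensional K A] :
    Module.finrank K (FR A).V = 4 * Module.finrank K A := by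
  change Module.finrank K (A × A × A × A) = _
  rw [Module.finrank_prod, Module.finrank_prod, Module.finrank_prod]
  ring

instance (A : Type) [AddCommGroup A] [Module K A] [FiniteDimensional K A] :
    FiniteDimensional K (FR A).V :=
  inferInstanceAs (FiniteDimensional K (A × A × A × A))

theorem exists_decomp (X : Rep.{0} K V4) [FiniteDimensional K X.V] :
    ∃ N P' : Rep.{0} K V4, Projective P' ∧ Nonempty (X ≅ N ⊞ P') ∧
      (Module.finrank K N.V : ℤ) = cd X := by
  set r := Module.finrank K (LinearMap.range (no X)) with hr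
  let b : Module.Basis (Fin r) K (LinearMap.range (no X)) := Module.finBasis K _
  have hv : ∀ i, ∃ v, no X v = b i := fun i => (b i).2
  choose v hv using hv
  let A := Fin r → K
  let φ : A →ₗ[K] X.V := Fintype.linearCombination K v
  -- the retraction
  obtain ⟨l, hl⟩ := (LinearMap.range (no X)).subtype.exists_leftInverse_of_injective
    (by rw [Submodule.ker_subtype])
  let l' : X.V →ₗ[K] A := (b.equivFun : _ →ₗ[K] (Fin r → K)) ∘ₗ l
  have hl' : ∀ a : A, l' (no X (φ a)) = a := by
    intro a
    have h1 : no X (φ a) = (LinearMap.range (no X)).subtype (∑ i, a i • b i) := by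
      have : φ a = ∑ i, a i • v i := Fintype.linearCombination_apply K v a
      simp only [this, map_sum, map_smul, hv, Submodule.subtype_apply]
    have h2 : l (no X (φ a)) = ∑ i, a i • b i := by
      rw [h1]
      exact LinearMap.congr_fun hl _
    simp only [l', LinearMap.comp_apply, h2]
    exact b.equivFun_symm_apply a ▸ b.equivFun.apply_symm_apply a
  let π : X ⟶ FR A := colift l'
  let ι : FR A ⟶ X := liftFR φ
  have hinj : Function.Injective (fun w => π.hom (ι.hom w)) := by
    have : ∀ w, π.hom (ι.hom w) = 0 → w = 0 := by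
      intro w hw
      obtain ⟨p, q, s, t, rfl⟩ := fm_surj w
      have e1 : ι.hom (fm p q s t) = φ p + xo X (φ q) + yo X (φ s) + no X (φ t) := rfl
      rw [e1] at hw
      have e2 : ∀ w, π.hom w = fm (l' (no X w)) (l' (yo X w)) (l' (xo X w)) (l' w) := fun w => rfl
      rw [e2, ← fm_zero] at hw
      obtain ⟨f1, f2, f3, f4⟩ := fm_inj hw
      have h1 : ∀ w, xo X (xo X w) = 0 := fun w => LinearMap.congr_fun (xo_sq X) w
      have h2 : ∀ w, yo X (yo X w) = 0 := fun w => LinearMap.congr_fun (yo_sq X) w
      have h3 : ∀ w, yo X (xo X w) = xo X (yo X w) :=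
        fun w => (LinearMap.congr_fun (xo_yo X) w).symm
      have hl'' : ∀ a : A, l' (xo X (yo X (φ a))) = a := hl'
      simp only [no, Module.End.mul_apply, map_add, h1, h2, h3, map_zero, add_zero, zero_add,
        hl''] at f1 f2 f3 f4
      subst f1
      simp only [map_zero, zero_add] at f2 f3 f4
      subst f2 f3
      simp only [map_zero, zero_add] at f4
      subst f4
      rfl
    intro a b hab
    have : a - b = 0 := this _ (by
      simp only [map_sub]
      exact sub_eq_zero.2 hab)
    exact sub_eq_zero.1 this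
  have hsurj : Function.Surjective (fun w => π.hom (ι.hom w)) := by
    have := (LinearMap.injective_iff_surjective (f := (π.hom.toLinearMap ∘ₗ ι.hom.toLinearMap))).1
      hinj
    exact this
  have hepi : Epi π := by
    rw [Rep.epi_iff_surjective]
    intro w
    obtain ⟨u, hu⟩ := hsurj w
    exact ⟨ι.hom u, hu⟩
  let S : ShortComplex (Rep.{0} K V4) := ShortComplex.mk (kernel.ι π) π (kernel.condition π)
  have hS : S.ShortExact := { exact := ShortComplex.exact_kernel π }
  have hp : Projective S.X₃ := FR_projective A
  have e : X ≅ kernel π ⊞ FR A := hS.splittingOfProjective.isoBinaryBiproduct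
  have hfin : FiniteDimensional K (kernel π).V := by
    have hm : Function.Injective (kernel.ι π).hom := (Rep.mono_iff_injective _).1 inferInstance
    exact FiniteDimensional.of_injective (kernel.ι π).hom.toLinearMap hm
  refine ⟨kernel π, FR A, hp, ⟨e⟩, ?_⟩
  have h1 : Module.finrank K X.V = Module.finrank K (kernel π).V + Module.finrank K (FR A).V := by
    let L : X.V ≃ₗ[K] (kernel π ⊞ FR A).V := LinearEquiv.ofBijective e.hom.hom.toLinearMap
      ⟨fun a b h => by
        have := congrArg (fun t => e.inv.hom t) h
        simpa using this, fun b => ⟨e.inv.hom b, by simp⟩⟩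
    rw [L.finrank_eq, (biprodEquiv _ _).finrank_eq, Module.finrank_prod]
  rw [finrank_FR] at h1
  have h2 : Module.finrank K A = r := by simp [A]
  rw [h2] at h1
  rw [cd, ← hr, h1]
  push_cast
  ring

/-- The integer `cd X` is a lower bound for the dimension of a complement of a projective
summand. -/
theorem decomp_bound (X N P' : Rep.{0} K V4) [FiniteDimensional K X.V] [Projective P']
    (e : X ≅ N ⊞ P') : cd X ≤ (Module.finrank K N.V : ℤ) := by
  let L : X.V ≃ₗ[K] N.V × P'.V := (LinearEquiv.ofBijective e.hom.hom.toLinearMap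
      ⟨fun a b h => by
        have := congrArg (fun t => e.inv.hom t) h
        simpa using this, fun b => ⟨e.inv.hom b, by simp⟩⟩ : X.V ≃ₗ[K] (N ⊞ P').V).trans
      (biprodEquiv _ _)
  have hN : FiniteDimensional K N.V := FiniteDimensional.of_surjective
    ((LinearMap.fst K N.V P'.V) ∘ₗ (L : X.V →ₗ[K] N.V × P'.V))
    (fun a => ⟨L.symm (a, 0), by simp⟩)
  have hP : FiniteDimensional K P'.V := FiniteDimensional.of_surjective
    ((LinearMap.snd K N.V P'.V) ∘ₗ (L : X.V →ₗ[K] N.V × P'.V))
    (fun a => ⟨L.symm (0, a), by simp⟩)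
  rw [cd_iso e, cd_biprod, cd_projective P', add_zero, cd]
  have : (0 : ℤ) ≤ Module.finrank K (LinearMap.range (no N)) := by positivity
  linarith

end Pool.Agent.X277.CD
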