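import Mathlib
import Pool.Agent.X277.CD.V4

/-!
# The syzygies of the trivial module of the Klein four group
-/

namespace Pool.Agent.X277.CD

open CategoryTheory CategoryTheory.Limits CategoryTheory.MonoidalCategory

lemma rep_exact (S : ShortComplex (Rep.{0} K V4))
    (h : Function.Exact S.f.hom S.g.hom) : S.Exact := by
  rw [← S.exact_map_iff_of_faithful (forget₂ (Rep.{0} K V4) (ModuleCat.{0} K)),
    ShortComplex.ShortExact.moduleCat_exact_iff_function_exact]
  exact h

lemma rep_shortExact (S : ShortComplex (Rep.{0} K V4)) (hf : Function.Injective S.f.hom)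
    (hg : Function.Surjective S.g.hom) (h : Function.Exact S.f.hom S.g.hom) : S.ShortExact :=
  { exact := rep_exact S h
    mono_f := (Rep.mono_iff_injective _).2 hf
    epi_g := (Rep.epi_iff_surjective _).2 hg }

lemma rep_exact' {S : ShortComplex (Rep.{0} K V4)} (h : S.ShortExact) :
    Function.Exact S.f.hom S.g.hom := by
  have := h.exact
  rw [← S.exact_map_iff_of_faithful (forget₂ (Rep.{0} K V4) (ModuleCat.{0} K)),
    ShortComplex.ShortExact.moduleCat_exact_iff_function_exact] at this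
  exact this

/-- tensoring a short exact sequence -/
lemma tensor_shortExact (Z : Rep.{0} K V4) {A B C : Rep.{0} K V4} (i : A ⟶ B) (g : B ⟶ C)
    (w : i ≫ g = 0) (h : (ShortComplex.mk i g w).ShortExact) :
    (ShortComplex.mk (Z ◁ i) (Z ◁ g) (by rw [← MonoidalCategory.whiskerLeft_comp, w,
      MonoidalPreadditive.whiskerLeft_zero])).ShortExact := by
  have h1 := rep_exact' h
  have h2 : Function.Injective i.hom := (Rep.mono_iff_injective _).1 h.mono_f
  have h3 : Function.Surjective g.hom := (Rep.epi_iff_surjective _).1 h.epi_g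
  refine rep_shortExact _ ?_ ?_ ?_
  · exact Module.Flat.lTensor_preserves_injective_linearMap (M := Z.V) i.hom.toLinearMap h2
  · exact LinearMap.lTensor_surjective Z.V (g := g.hom.toLinearMap) h3
  · exact lTensor_exact Z.V (f := i.hom.toLinearMap) (g := g.hom.toLinearMap) h1 h3

section Kronecker

variable {A B : Type} [AddCommGroup A] [Module K A] [AddCommGroup B] [Module K B]

/-- operator `(a,b) ↦ (0, X a)` -/
def kx (X : A →ₗ[K] B) : Module.End K (A × B) where
  toFun v := (0, X v.1)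
  map_add' a b := by simp
  map_smul' r a := by simp

/-- The representation on `A × B` with `x (a,b) = (0, X a)` and `y (a,b) = (0, Y a)`. -/
noncomputable def Kr (X Y : A →ₗ[K] B) : Rep.{0} K V4 :=
  mkRep (kx X) (kx Y) (by ext <;> simp [kx]) (by ext <;> simp [kx]) (by ext <;> simp [kx])

/-- elements of `Kr X Y` -/
def km (X Y : A →ₗ[K] B) (a : A) (b : B) : (Kr X Y).V := (show A × B from (a, b))

lemma km_add (X Y : A →ₗ[K] B) (a a' : A) (b b' : B) :
    km X Y a b + km X Y a' b' = km X Y (a + a') (b + b') := rfl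

lemma xo_km (X Y : A →ₗ[K] B) (a : A) (b : B) : xo (Kr X Y) (km X Y a b) = km X Y 0 (X a) :=
  LinearMap.congr_fun (xo_mkRep _ _ _ _ _) _

lemma yo_km (X Y : A →ₗ[K] B) (a : A) (b : B) : yo (Kr X Y) (km X Y a b) = km X Y 0 (Y a) :=
  LinearMap.congr_fun (yo_mkRep _ _ _ _ _) _

lemma no_Kr (X Y : A →ₗ[K] B) : no (Kr X Y) = 0 := by
  apply LinearMap.ext
  intro v
  have hv : v = km X Y v.1 v.2 := rfl
  rw [hv, no, Module.End.mul_apply, yo_km, xo_km, map_zero]
  rfl

lemma cd_Kr (X Y : A →ₗ[K] B) [FiniteDimensional K A] [FiniteDimensional K B] :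
    cd (Kr X Y) = Module.finrank K A + Module.finrank K B := by
  have h1 : Module.finrank K (Kr X Y).V = Module.finrank K A + Module.finrank K B :=
    Module.finrank_prod (R := K) (M := A) (M' := B)
  rw [cd, no_Kr, LinearMap.range_zero, finrank_bot, h1]
  push_cast
  ring

variable {A' : Type} [AddCommGroup A'] [Module K A']

/-- `Kr X' Y' → F(A)` -/
noncomputable def kin (X' Y' : A' →ₗ[K] A) : Kr X' Y' ⟶ FR A :=
  mkHom (X := Kr X' Y') (Y := FR A)
    (show (A' × A) →ₗ[K] (A × A × A × A) from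
      { toFun := fun v => (0, Y' v.1, X' v.1, v.2)
        map_add' := by intro a b; simp
        map_smul' := by intro r a; simp })
    (by
      intro v
      have hv : v = km X' Y' v.1 v.2 := rfl
      rw [hv, xo_km]
      change fm 0 (Y' 0) (X' 0) (X' v.1) = xo (FR A) (fm 0 (Y' v.1) (X' v.1) v.2)
      rw [xo_fm, map_zero, map_zero])
    (by
      intro v
      have hv : v = km X' Y' v.1 v.2 := rfl
      rw [hv, yo_km]
      change fm 0 (Y' 0) (X' 0) (Y' v.1) = yo (FR A) (fm 0 (Y' v.1) (X' v.1) v.2)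
      rw [yo_fm, map_zero, map_zero])

/-- `F(A) → Kr X Y` -/
noncomputable def kout (X Y : A →ₗ[K] B) : FR A ⟶ Kr X Y :=
  liftFR (X := Kr X Y) (show A →ₗ[K] (A × B) from LinearMap.inl K A B)

lemma kout_fm (X Y : A →ₗ[K] B) (p q r s : A) :
    (kout X Y).hom (fm p q r s) = km X Y p (X q + Y r) := by
  have h1 : (kout X Y).hom (fm p q r s) = km X Y p 0 + xo (Kr X Y) (km X Y q 0)
      + yo (Kr X Y) (km X Y r 0) + no (Kr X Y) (km X Y s 0) := rfl
  rw [h1, no_Kr, xo_km, yo_km, LinearMap.zero_apply, add_zero, km_add, km_add]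
  simp

lemma kin_apply (X' Y' : A' →ₗ[K] A) (f : A') (s : A) :
    (kin X' Y').hom (km X' Y' f s) = fm 0 (Y' f) (X' f) s := rfl

theorem kr_shortExact (X Y : A →ₗ[K] B) (X' Y' : A' →ₗ[K] A)
    (h0 : ∀ f, X (Y' f) + Y (X' f) = 0)
    (hex : ∀ q r, X q + Y r = 0 → ∃ f, Y' f = q ∧ X' f = r)
    (hinj : ∀ f, X' f = 0 → Y' f = 0 → f = 0)
    (hsurj : ∀ w, ∃ q r, X q + Y r = w) :
    ∃ w : kin X' Y' ≫ kout X Y = 0,
      (ShortComplex.mk (kin X' Y') (kout X Y) w).ShortExact := by
  have w : kin X' Y' ≫ kout X Y = 0 := by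
    ext v
    have hv : v = km X' Y' v.1 v.2 := rfl
    have h1 : (kin X' Y' ≫ kout X Y).hom v = (kout X Y).hom ((kin X' Y').hom v) := rfl
    refine h1.trans ?_
    rw [hv, kin_apply, kout_fm, h0]
    rfl
  refine ⟨w, rep_shortExact _ ?_ ?_ ?_⟩
  · intro a b hab
    have ha : a = km X' Y' a.1 a.2 := rfl
    have hb : b = km X' Y' b.1 b.2 := rfl
    have hab' : (kin X' Y').hom a = (kin X' Y').hom b := hab
    rw [ha, hb, kin_apply, kin_apply] at hab'
    obtain ⟨-, e1, e2, e3⟩ := fm_inj hab'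
    have e4 : a.1 - b.1 = 0 := hinj _ (by rw [map_sub, e2, sub_self]) (by rw [map_sub, e1, sub_self])
    exact Prod.ext (sub_eq_zero.1 e4) e3
  · intro v
    obtain ⟨q, r, hqr⟩ := hsurj v.2
    refine ⟨fm v.1 q r 0, ?_⟩
    refine (kout_fm X Y _ _ _ _).trans ?_
    rw [hqr]
    rfl
  · intro v
    obtain ⟨p, q, r, s, rfl⟩ := fm_surj v
    constructor
    · intro h
      have h' : km X Y p (X q + Y r) = km X Y 0 0 := (kout_fm X Y p q r s).symm.trans h
      have h'' : ((p, X q + Y r) : A × B) = (0, 0) := h'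
      simp only [Prod.mk.injEq] at h''
      obtain ⟨f, hf1, hf2⟩ := hex q r h''.2
      refine ⟨km X' Y' f s, ?_⟩
      refine (kin_apply X' Y' f s).trans ?_
      rw [hf1, hf2, h''.1]
    · rintro ⟨u, hu⟩
      have hu' : u = km X' Y' u.1 u.2 := rfl
      have hu2 : (kin X' Y').hom u = fm p q r s := hu
      rw [hu', kin_apply] at hu2
      obtain ⟨e1, e2, e3, e4⟩ := fm_inj hu2
      refine (kout_fm X Y p q r s).trans ?_
      rw [← e1, ← e2, ← e3, h0]
      rfl

end Kronecker

/-- precomposition with `Fin.succ` -/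
def Xs (n : ℕ) : (Fin (n + 1) → K) →ₗ[K] (Fin n → K) := LinearMap.funLeft K K Fin.succ
/-- precomposition with `Fin.castSucc` -/
def Ys (n : ℕ) : (Fin (n + 1) → K) →ₗ[K] (Fin n → K) := LinearMap.funLeft K K Fin.castSucc

/-- prepend zero -/
def Xc (n : ℕ) : (Fin n → K) →ₗ[K] (Fin (n + 1) → K) where
  toFun f := Fin.cons 0 f
  map_add' a b := by
    ext i; refine Fin.cases ?_ (fun i => ?_) i <;> simp
  map_smul' r a := by
    ext i; refine Fin.cases ?_ (fun i => ?_) i <;> simp
/-- append zero -/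
def Yc (n : ℕ) : (Fin n → K) →ₗ[K] (Fin (n + 1) → K) where
  toFun f := Fin.snoc f 0
  map_add' a b := by
    ext i; refine Fin.lastCases ?_ (fun i => ?_) i <;> simp
  map_smul' r a := by
    ext i; refine Fin.lastCases ?_ (fun i => ?_) i <;> simp

/-- The modules `Ω^m(k)`. -/
noncomputable def W : ℤ → Rep.{0} K V4
  | Int.ofNat n => Kr (Xs n) (Ys n)
  | Int.negSucc n => Kr (Xc (n + 1)) (Yc (n + 1))

lemma K_add_eq_zero {a b : K} (h : a + b = 0) : a = b := by
  have := eq_neg_of_add_eq_zero_left h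
  rwa [show (-b : K) = b from ZMod.neg_eq_self_mod_two b] at this

theorem seq_nonneg (n : ℕ) : ∃ w : kin (Xs (n + 1)) (Ys (n + 1)) ≫
    kout (Xs n) (Ys n) = 0,
      (ShortComplex.mk (kin (Xs (n + 1)) (Ys (n + 1))) (kout (Xs n) (Ys n)) w).ShortExact := by
  apply kr_shortExact
  · intro f
    ext i
    simp only [Xs, Ys, LinearMap.funLeft_apply, Pi.add_apply, Pi.zero_apply, Fin.succ_castSucc]
    exact two_smul_zero _
  · intro q r h
    refine ⟨Fin.cons (q 0) r, ?_, ?_⟩
    · ext i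
      refine Fin.cases ?_ (fun i => ?_) i
      · simp [Ys, LinearMap.funLeft_apply]
      · have := congrFun h i
        simp only [Xs, Ys, LinearMap.funLeft_apply, Pi.add_apply, Pi.zero_apply] at this
        simp only [Ys, LinearMap.funLeft_apply, Fin.castSucc_succ, Fin.cons_succ]
        exact (K_add_eq_zero this).symm
    · ext i
      simp [Xs, LinearMap.funLeft_apply]
  · intro f h1 h2
    ext i
    refine Fin.cases ?_ (fun i => ?_) i
    · exact congrFun h2 0
    · exact congrFun h1 i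
  · intro w
    refine ⟨Fin.cons 0 w, 0, ?_⟩
    ext i
    simp [Xs, LinearMap.funLeft_apply]

theorem seq_neg (n : ℕ) : ∃ w : kin (Xc n) (Yc n) ≫
    kout (Xc (n + 1)) (Yc (n + 1)) = 0,
      (ShortComplex.mk (kin (Xc n) (Yc n))
        (kout (Xc (n + 1)) (Yc (n + 1))) w).ShortExact := by
  apply kr_shortExact
  · intro f
    have : (Fin.cons 0 (Fin.snoc f 0) : Fin (n + 2) → K) = Fin.snoc (Fin.cons 0 f) 0 :=
      Fin.cons_snoc_eq_snoc_cons _ _ _
    change (Fin.cons 0 (Fin.snoc f 0) : Fin (n + 2) → K) + Fin.snoc (Fin.cons 0 f) 0 = 0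
    rw [this]
    exact two_smul_zero _
  · intro q r h
    have h' : (Fin.cons 0 q : Fin (n + 2) → K) + Fin.snoc r 0 = 0 := h
    have hi : ∀ i, (Fin.cons 0 q : Fin (n + 2) → K) i = (Fin.snoc r 0 : Fin (n + 2) → K) i :=
      fun i => K_add_eq_zero (congrFun h' i)
    refine ⟨fun i => r i.succ, ?_, ?_⟩
    · ext i
      refine Fin.lastCases ?_ (fun i => ?_) i
      · have := hi (Fin.last (n + 1))
        rw [← Fin.succ_last, Fin.cons_succ, Fin.succ_last, Fin.snoc_last] at this
        simp only [Yc, LinearMap.coe_mk, AddHom.coe_mk, Fin.snoc_last]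
        exact this.symm
      · have := hi (Fin.succ (Fin.castSucc i))
        rw [Fin.cons_succ, Fin.succ_castSucc, Fin.snoc_castSucc] at this
        simp only [Yc, LinearMap.coe_mk, AddHom.coe_mk, Fin.snoc_castSucc]
        exact this.symm
    · ext i
      refine Fin.cases ?_ (fun i => ?_) i
      · have := hi 0
        rw [Fin.cons_zero, ← Fin.castSucc_zero, Fin.snoc_castSucc] at this
        simp only [Xc, LinearMap.coe_mk, AddHom.coe_mk, Fin.cons_zero]
        exact this
      · simp only [Xc, LinearMap.coe_mk, AddHom.coe_mk, Fin.cons_succ]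
  · intro f h1 h2
    ext i
    have := congrFun h1 i.succ
    simpa [Xc] using this
  · intro w
    refine ⟨fun i => w i.succ, Fin.cons (w 0) 0, ?_⟩
    have e : (Fin.cons (w 0) (Fin.snoc (0 : Fin n → K) 0) : Fin (n + 2) → K)
        = Fin.snoc (Fin.cons (w 0) 0) 0 :=
      Fin.cons_snoc_eq_snoc_cons _ _ _
    have e2 : (Fin.snoc (0 : Fin n → K) 0 : Fin (n + 1) → K) = 0 := by
      ext i
      refine Fin.lastCases ?_ (fun i => ?_) i <;> simp
    change (Fin.cons 0 (fun i => w i.succ) : Fin (n + 2) → K) + Fin.snoc (Fin.cons (w 0) 0) 0 = w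
    rw [← e, e2]
    ext i
    refine Fin.cases ?_ (fun i => ?_) i <;> simp

/-- swap -/
noncomputable def sw1 : ((Fin 0 → K) × (Fin 1 → K)) →ₗ[K] ((Fin 1 → K) × (Fin 0 → K)) :=
  (LinearEquiv.prodComm K (Fin 0 → K) (Fin 1 → K)).toLinearMap

/-- swap -/
noncomputable def sw2 : ((Fin 1 → K) × (Fin 0 → K)) →ₗ[K] ((Fin 0 → K) × (Fin 1 → K)) :=
  (LinearEquiv.prodComm K (Fin 1 → K) (Fin 0 → K)).toLinearMap

/-- `Kr` for `n = 0` of the second family is the trivial module. -/
noncomputable def isoZero : Kr (Xc 0) (Yc 0) ≅ Kr (Xs 0) (Ys 0) where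
  hom := mkHom (X := Kr (Xc 0) (Yc 0)) (Y := Kr (Xs 0) (Ys 0))
    sw1
    (by
      intro v
      have hv : v = km (Xc 0) (Yc 0) v.1 v.2 := rfl
      rw [hv, xo_km]
      have h0 : v.1 = (0 : Fin 0 → K) := Subsingleton.elim _ _
      rw [h0, map_zero]
      change km (Xs 0) (Ys 0) 0 0 = xo (Kr (Xs 0) (Ys 0)) (km (Xs 0) (Ys 0) v.2 0)
      rw [xo_km]
      exact Prod.ext rfl (Subsingleton.elim _ _))
    (by
      intro v
      have hv : v = km (Xc 0) (Yc 0) v.1 v.2 := rfl
      rw [hv, yo_km]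
      have h0 : v.1 = (0 : Fin 0 → K) := Subsingleton.elim _ _
      rw [h0, map_zero]
      change km (Xs 0) (Ys 0) 0 0 = yo (Kr (Xs 0) (Ys 0)) (km (Xs 0) (Ys 0) v.2 0)
      rw [yo_km]
      exact Prod.ext rfl (Subsingleton.elim _ _))
  inv := mkHom (X := Kr (Xs 0) (Ys 0)) (Y := Kr (Xc 0) (Yc 0))
    sw2
    (by
      intro v
      have hv : v = km (Xs 0) (Ys 0) v.1 v.2 := rfl
      rw [hv, xo_km]
      change km (Xc 0) (Yc 0) (Xs 0 v.1) 0 = xo (Kr (Xc 0) (Yc 0)) (km (Xc 0) (Yc 0) v.2 v.1)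
      rw [xo_km]
      have h0 : v.2 = (0 : Fin 0 → K) := Subsingleton.elim _ _
      rw [h0, map_zero]
      exact Prod.ext (Subsingleton.elim _ _) rfl)
    (by
      intro v
      have hv : v = km (Xs 0) (Ys 0) v.1 v.2 := rfl
      rw [hv, yo_km]
      change km (Xc 0) (Yc 0) (Ys 0 v.1) 0 = yo (Kr (Xc 0) (Yc 0)) (km (Xc 0) (Yc 0) v.2 v.1)
      rw [yo_km]
      have h0 : v.2 = (0 : Fin 0 → K) := Subsingleton.elim _ _
      rw [h0, map_zero]
      exact Prod.ext (Subsingleton.elim _ _) rfl)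
  hom_inv_id := rfl
  inv_hom_id := rfl

/-- The trivial module is `W 0`. -/
noncomputable def isoUnit : (𝟙_ (Rep.{0} K V4)) ≅ Kr (Xs 0) (Ys 0) where
  hom := mkHom (X := 𝟙_ (Rep.{0} K V4)) (Y := Kr (Xs 0) (Ys 0))
    (show K →ₗ[K] ((Fin 1 → K) × (Fin 0 → K)) from
      { toFun := fun a => (fun _ => a, 0)
        map_add' := fun a b => Prod.ext rfl (Subsingleton.elim _ _)
        map_smul' := fun a b => Prod.ext rfl (Subsingleton.elim _ _) })
    (by
      intro v
      have h1 : xo (𝟙_ (Rep.{0} K V4)) v = 0 := two_smul_zero (V := K) v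
      rw [h1]
      change km (Xs 0) (Ys 0) 0 0 = xo (Kr (Xs 0) (Ys 0)) (km (Xs 0) (Ys 0) (fun _ => v) 0)
      rw [xo_km]
      exact Prod.ext rfl (Subsingleton.elim _ _))
    (by
      intro v
      have h1 : yo (𝟙_ (Rep.{0} K V4)) v = 0 := two_smul_zero (V := K) v
      rw [h1]
      change km (Xs 0) (Ys 0) 0 0 = yo (Kr (Xs 0) (Ys 0)) (km (Xs 0) (Ys 0) (fun _ => v) 0)
      rw [yo_km]
      exact Prod.ext rfl (Subsingleton.elim _ _))
  inv := mkHom (X := Kr (Xs 0) (Ys 0)) (Y := 𝟙_ (Rep.{0} K V4))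
    (show ((Fin 1 → K) × (Fin 0 → K)) →ₗ[K] K from
      (LinearMap.proj 0) ∘ₗ LinearMap.fst K (Fin 1 → K) (Fin 0 → K))
    (by
      intro v
      have hv : v = km (Xs 0) (Ys 0) v.1 v.2 := rfl
      rw [hv, xo_km]
      exact (two_smul_zero (V := K) _).symm)
    (by
      intro v
      have hv : v = km (Xs 0) (Ys 0) v.1 v.2 := rfl
      rw [hv, yo_km]
      exact (two_smul_zero (V := K) _).symm)
  hom_inv_id := rfl
  inv_hom_id := by
    ext v
    refine Prod.ext ?_ (Subsingleton.elim _ _)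
    refine funext fun i => ?_
    have : i = 0 := Subsingleton.elim (α := Fin 1) _ _
    subst this
    rfl

end Pool.Agent.X277.CD
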