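import Mathlib
import Pool.Agent.X277.CD.Dec
import Pool.Agent.X277.CD.W

/-!
# Stable equivalence and the recursion for the core dimensions of tensor powers
-/

namespace Pool.Agent.X277.CD

open CategoryTheory CategoryTheory.Limits CategoryTheory.MonoidalCategory

instance fd_biprod (X Y : Rep.{0} K V4) [FiniteDimensional K X.V] [FiniteDimensional K Y.V] :
    FiniteDimensional K (X ⊞ Y).V :=
  FiniteDimensional.of_injective (biprodEquiv X Y).toLinearMap (biprodEquiv X Y).injective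

instance pbb_left (Z : Rep.{0} K V4) : PreservesBinaryBiproducts (tensorLeft Z) :=
  preservesBinaryBiproducts_of_preservesBiproducts _

instance pbb_right (Z : Rep.{0} K V4) : PreservesBinaryBiproducts (tensorRight Z) :=
  preservesBinaryBiproducts_of_preservesBiproducts _

instance fd_tensor (X Y : Rep.{0} K V4) [FiniteDimensional K X.V] [FiniteDimensional K Y.V] :
    FiniteDimensional K (X ⊗ Y).V :=
  inferInstanceAs (FiniteDimensional K (TensorProduct K X.V Y.V))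

lemma fd_iso {X Y : Rep.{0} K V4} (e : X ≅ Y) [FiniteDimensional K X.V] :
    FiniteDimensional K Y.V :=
  FiniteDimensional.of_surjective e.hom.hom.toLinearMap (fun b => ⟨e.inv.hom b, by simp⟩)

/-- stable equivalence -/
def SE (X Y : Rep.{0} K V4) : Prop :=
  ∃ P Q : Rep.{0} K V4, Projective P ∧ Projective Q ∧ FiniteDimensional K P.V ∧
    FiniteDimensional K Q.V ∧ Nonempty (X ⊞ P ≅ Y ⊞ Q)

lemma zero_projective : Projective (FR PUnit.{1}) ∧ FiniteDimensional K (FR PUnit.{1}).V :=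
  ⟨inferInstance, inferInstance⟩

lemma SE.of_iso {X Y : Rep.{0} K V4} (e : X ≅ Y) : SE X Y :=
  ⟨FR PUnit.{1}, FR PUnit.{1}, inferInstance, inferInstance, inferInstance, inferInstance,
    ⟨biprod.mapIso e (Iso.refl _)⟩⟩

lemma SE.symm {X Y : Rep.{0} K V4} (h : SE X Y) : SE Y X := by
  obtain ⟨P, Q, h1, h2, h3, h4, ⟨e⟩⟩ := h
  exact ⟨Q, P, h2, h1, h4, h3, ⟨e.symm⟩⟩

lemma SE.trans {X Y Z : Rep.{0} K V4} (h : SE X Y) (h' : SE Y Z) : SE X Z := by
  obtain ⟨P, Q, h1, h2, h3, h4, ⟨e⟩⟩ := h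
  obtain ⟨R, S, h5, h6, h7, h8, ⟨f⟩⟩ := h'
  refine ⟨P ⊞ R, S ⊞ Q, inferInstance, inferInstance, inferInstance, inferInstance, ⟨?_⟩⟩
  exact (biprod.associator X P R).symm ≪≫ biprod.mapIso e (Iso.refl R) ≪≫
    biprod.associator Y Q R ≪≫ biprod.mapIso (Iso.refl Y) (biprod.braiding Q R) ≪≫
    (biprod.associator Y R Q).symm ≪≫ biprod.mapIso f (Iso.refl Q) ≪≫ biprod.associator Z S Q

lemma SE.tensor_right {X Y : Rep.{0} K V4} (h : SE X Y) (Z : Rep.{0} K V4)
    [FiniteDimensional K Z.V] : SE (X ⊗ Z) (Y ⊗ Z) := by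
  obtain ⟨P, Q, h1, h2, h3, h4, ⟨e⟩⟩ := h
  refine ⟨P ⊗ Z, Q ⊗ Z, projective_tensor_right P Z, projective_tensor_right Q Z,
    inferInstance, inferInstance, ⟨?_⟩⟩
  exact ((tensorRight Z).mapBiprod X P).symm ≪≫ (tensorRight Z).mapIso e ≪≫
    (tensorRight Z).mapBiprod Y Q

lemma SE.tensor_left {X Y : Rep.{0} K V4} (h : SE X Y) (Z : Rep.{0} K V4)
    [FiniteDimensional K Z.V] : SE (Z ⊗ X) (Z ⊗ Y) := by
  obtain ⟨P, Q, h1, h2, h3, h4, ⟨e⟩⟩ := h
  refine ⟨Z ⊗ P, Z ⊗ Q, projective_tensor_left Z P, projective_tensor_left Z Q,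
    inferInstance, inferInstance, ⟨?_⟩⟩
  exact ((tensorLeft Z).mapBiprod X P).symm ≪≫ (tensorLeft Z).mapIso e ≪≫
    (tensorLeft Z).mapBiprod Y Q

/-! ### the modules `W m` -/

instance fd_W (m : ℤ) : FiniteDimensional K (W m).V := by
  cases m with
  | ofNat n => exact inferInstanceAs (FiniteDimensional K ((Fin (n + 1) → K) × (Fin n → K)))
  | negSucc n =>
    exact inferInstanceAs (FiniteDimensional K ((Fin (n + 1) → K) × (Fin (n + 1 + 1) → K)))

lemma cd_W (m : ℤ) : cd (W m) = 2 * |m| + 1 := by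
  cases m with
  | ofNat n =>
    change cd (Kr (Xs n) (Ys n)) = _
    rw [cd_Kr]
    simp
    ring
  | negSucc n =>
    change cd (Kr (Xc (n + 1)) (Yc (n + 1))) = _
    rw [cd_Kr]
    rw [Int.negSucc_eq, abs_neg, abs_of_nonneg (by positivity)]
    simp
    ring

theorem W_seq (m : ℤ) : ∃ (A F : Rep.{0} K V4) (i : A ⟶ F) (g : F ⟶ W m) (w : i ≫ g = 0),
    FiniteDimensional K F.V ∧ Projective F ∧ (ShortComplex.mk i g w).ShortExact ∧
    Nonempty (A ≅ W (m + 1)) := by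
  match m with
  | Int.ofNat n =>
    obtain ⟨w, h⟩ := seq_nonneg n
    exact ⟨Kr (Xs (n + 1)) (Ys (n + 1)), FR (Fin (n + 1) → K), _, _, w, inferInstance,
      inferInstance, h, ⟨Iso.refl _⟩⟩
  | Int.negSucc 0 =>
    obtain ⟨w, h⟩ := seq_neg 0
    exact ⟨Kr (Xc 0) (Yc 0), FR (Fin 1 → K), _, _, w, inferInstance,
      inferInstance, h, ⟨isoZero⟩⟩
  | Int.negSucc (n + 1) =>
    obtain ⟨w, h⟩ := seq_neg (n + 1)
    exact ⟨Kr (Xc (n + 1)) (Yc (n + 1)), FR (Fin (n + 2) → K), _, _, w, inferInstance,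
      inferInstance, h, ⟨Iso.refl _⟩⟩

/-- `W 0` is the unit object. -/
noncomputable def unitIso : 𝟙_ (Rep.{0} K V4) ≅ W 0 := isoUnit

theorem W_tensor_W1 (m : ℤ) : SE (W m ⊗ W 1) (W (m + 1)) := by
  obtain ⟨A, F, i, g, w, hF, hP, hS, ⟨eA⟩⟩ := W_seq m
  obtain ⟨w0, h0⟩ := seq_nonneg 0
  have hT := tensor_shortExact (W m) _ _ w0 h0
  -- replace the third term by `W m`
  let e : W m ⊗ Kr (Xs 0) (Ys 0) ≅ W m :=
    (tensorLeft (W m)).mapIso isoUnit.symm ≪≫ ρ_ (W m)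
  let f : W m ⊗ FR (Fin 1 → K) ⟶ W m := (W m ◁ kout (Xs 0) (Ys 0)) ≫ e.hom
  have wf : (W m ◁ kin (Xs (0 + 1)) (Ys (0 + 1))) ≫ f = 0 := by
    have := hT.exact
    change (W m ◁ kin (Xs (0 + 1)) (Ys (0 + 1))) ≫ (W m ◁ kout (Xs 0) (Ys 0)) ≫ e.hom = 0
    rw [← Category.assoc, ← MonoidalCategory.whiskerLeft_comp, w0,
      MonoidalPreadditive.whiskerLeft_zero, zero_comp]
  have hT' : (ShortComplex.mk _ f wf).ShortExact := by
    refine ShortComplex.shortExact_of_iso ?_ hT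
    exact ShortComplex.isoMk (Iso.refl _) (Iso.refl _) e (by simp) (by simp [f])
  have hp1 : Projective (W m ⊗ FR (Fin 1 → K)) := projective_tensor_left _ _
  obtain ⟨E⟩ := schanuel _ _ wf hT' i g w hS
  exact SE.trans ⟨F, W m ⊗ FR (Fin 1 → K), hP, hp1, hF, inferInstance, ⟨E⟩⟩ (SE.of_iso eA)

theorem W1_tensor_Wneg : SE (W 1 ⊗ W (-1)) (𝟙_ (Rep.{0} K V4)) :=
  ((SE.of_iso (β_ (W 1) (W (-1)))).trans (W_tensor_W1 (-1))).trans (SE.of_iso unitIso.symm)

theorem W_tensor_Wneg (m : ℤ) : SE (W m ⊗ W (-1)) (W (m - 1)) := by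
  have h1 : SE (W (m - 1) ⊗ W 1) (W m) := by
    have := W_tensor_W1 (m - 1)
    rwa [sub_add_cancel] at this
  have h2 := h1.symm.tensor_right (W (-1))
  have h3 := SE.of_iso (α_ (W (m - 1)) (W 1) (W (-1)))
  have h4 := W1_tensor_Wneg.tensor_left (W (m - 1))
  exact ((h2.trans h3).trans h4).trans (SE.of_iso (ρ_ _))

/-! ### the recursion -/

/-- The module `M = Ω(k) ⊕ Ω⁻¹(k)`. -/
noncomputable def MM : Rep.{0} K V4 := W 1 ⊞ W (-1)

instance : FiniteDimensional K MM.V := fd_biprod _ _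

/-- iterated tensor product with `M` on the right -/
noncomputable def T (n : ℕ) (Y : Rep.{0} K V4) : Rep.{0} K V4 :=
  (fun X : Rep.{0} K V4 => X ⊗ MM)^[n] Y

lemma T_succ (n : ℕ) (Y : Rep.{0} K V4) : T (n + 1) Y = T n (Y ⊗ MM) :=
  Function.iterate_succ_apply _ _ _

lemma fd_T (n : ℕ) (Y : Rep.{0} K V4) [FiniteDimensional K Y.V] :
    FiniteDimensional K (T n Y).V := by
  induction n generalizing Y with
  | zero => exact inferInstanceAs (FiniteDimensional K Y.V)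
  | succ n ih => rw [T_succ]; exact ih _

lemma cdT_iso (n : ℕ) {X Y : Rep.{0} K V4} (e : X ≅ Y) : cd (T n X) = cd (T n Y) := by
  induction n generalizing X Y with
  | zero => exact cd_iso e
  | succ n ih => rw [T_succ, T_succ]; exact ih ((tensorRight MM).mapIso e)

lemma cdT_biprod (n : ℕ) (X Y : Rep.{0} K V4) [FiniteDimensional K X.V]
    [FiniteDimensional K Y.V] : cd (T n (X ⊞ Y)) = cd (T n X) + cd (T n Y) := by
  induction n generalizing X Y with
  | zero => exact cd_biprod X Y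
  | succ n ih =>
    rw [T_succ, T_succ, T_succ, ← ih]
    exact cdT_iso n ((tensorRight MM).mapBiprod X Y)

lemma cdT_projective (n : ℕ) (P : Rep.{0} K V4) [FiniteDimensional K P.V] [Projective P] :
    cd (T n P) = 0 := by
  induction n generalizing P with
  | zero => exact cd_projective P
  | succ n ih =>
    rw [T_succ]
    have := projective_tensor_right P MM
    exact ih _

lemma cdT_SE (n : ℕ) {X Y : Rep.{0} K V4} [FiniteDimensional K X.V] [FiniteDimensional K Y.V]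
    (h : SE X Y) : cd (T n X) = cd (T n Y) := by
  obtain ⟨P, Q, h1, h2, h3, h4, ⟨e⟩⟩ := h
  have := cdT_iso n e
  rwa [cdT_biprod, cdT_biprod, cdT_projective n P, cdT_projective n Q, add_zero, add_zero] at this

theorem cdT_succ (n : ℕ) (m : ℤ) :
    cd (T (n + 1) (W m)) = cd (T n (W (m + 1))) + cd (T n (W (m - 1))) := by
  rw [T_succ, ← cdT_SE n (W_tensor_W1 m), ← cdT_SE n (W_tensor_Wneg m), ← cdT_biprod]
  exact cdT_iso n ((tensorLeft (W m)).mapBiprod (W 1) (W (-1)))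

/-- the recursively defined core dimensions -/
def u : ℕ → ℤ → ℤ
  | 0, m => 2 * |m| + 1
  | (n + 1), m => u n (m + 1) + u n (m - 1)

theorem cdT_eq (n : ℕ) (m : ℤ) : cd (T n (W m)) = u n m := by
  induction n generalizing m with
  | zero => exact cd_W m
  | succ n ih => rw [cdT_succ, ih, ih, u]

theorem core_dim (n : ℕ) :
    ((sInf {d : ℕ | ∃ N P' : Rep K V4, Projective P' ∧
      Nonempty ((fun X : Rep K V4 => X ⊗ MM)^[n] (𝟙_ (Rep K V4)) ≅ N ⊞ P') ∧
      Module.finrank K N.V = d} : ℕ) : ℤ) = u n 0 := by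
  have h0 : cd (T n (𝟙_ (Rep.{0} K V4))) = u n 0 := by
    rw [← cdT_eq, cdT_iso n unitIso]
  have hfd0 : FiniteDimensional K (𝟙_ (Rep.{0} K V4)).V :=
    inferInstanceAs (FiniteDimensional K K)
  have hfd : FiniteDimensional K (T n (𝟙_ (Rep.{0} K V4))).V := fd_T n _
  rw [← h0]
  obtain ⟨N, P', hP, hiso, hN⟩ := exists_decomp (T n (𝟙_ (Rep.{0} K V4)))
  set S := {d : ℕ | ∃ N P' : Rep K V4, Projective P' ∧
      Nonempty ((fun X : Rep K V4 => X ⊗ MM)^[n] (𝟙_ (Rep K V4)) ≅ N ⊞ P') ∧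
      Module.finrank K N.V = d} with hS
  have hmem : Module.finrank K N.V ∈ S := ⟨N, P', hP, hiso, rfl⟩
  have hmin : sInf S ∈ S := Nat.sInf_mem ⟨_, hmem⟩
  have hle : sInf S ≤ Module.finrank K N.V := Nat.sInf_le hmem
  obtain ⟨N', P'', hP'', ⟨e⟩, hN'⟩ := hmin
  have h2 : cd (T n (𝟙_ (Rep.{0} K V4))) ≤ (Module.finrank K N'.V : ℤ) := decomp_bound _ _ _ e
  rw [hN'] at h2
  apply le_antisymm
  · rw [← hN]; exact_mod_cast hle
  · exact h2

end Pool.Agent.X277.CD
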