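import Mathlib
import Pool.Agent.X277.CD.Stable

/-!
# The core dimension series is not rational
-/

namespace Pool.Agent.X277.CD

/-- walk counts -/
def z : ℕ → ℤ → ℤ
  | 0, m => if m = 0 then 1 else 0
  | (n + 1), m => z n (m + 1) + z n (m - 1)

lemma u_succ (n : ℕ) (m : ℤ) : u (n + 1) m = 2 * u n m + 4 * z n m := by
  induction n generalizing m with
  | zero =>
    simp only [u, z]
    split_ifs with h
    · subst h; norm_num
    · rcases lt_or_gt_of_ne h with h | h
      · rw [abs_of_neg h, abs_of_nonpos (by omega), abs_of_neg (by omega)]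
        ring
      · rw [abs_of_pos h, abs_of_nonneg (by omega : (0 : ℤ) ≤ m - 1), abs_of_pos (by omega)]
        ring
  | succ n ih =>
    have h1 : u (n + 1 + 1) m = u (n + 1) (m + 1) + u (n + 1) (m - 1) := rfl
    rw [h1, ih, ih]
    simp only [u, z]
    ring

lemma z_large (n : ℕ) (m : ℤ) (h : (n : ℤ) < m) : z n m = 0 := by
  induction n generalizing m with
  | zero =>
    have : m ≠ 0 := by push_cast at h; omega
    simp [z, this]
  | succ n ih =>
    push_cast at h
    simp only [z]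
    rw [ih _ (by omega), ih _ (by omega), add_zero]

lemma z_closed (n i : ℕ) : z n ((n : ℤ) - 2 * i) = (n.choose i : ℤ) := by
  induction n generalizing i with
  | zero =>
    cases i with
    | zero => simp [z]
    | succ i =>
      simp only [z, Nat.choose_zero_succ]
      rw [if_neg (by push_cast; omega)]
      simp
  | succ n ih =>
    simp only [z]
    cases i with
    | zero =>
      have h1 : ((n + 1 : ℕ) : ℤ) - 2 * ((0 : ℕ) : ℤ) - 1 = (n : ℤ) - 2 * (0 : ℕ) := by
        push_cast; ring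
      rw [z_large n _ (by push_cast; omega), h1, ih]
      simp
    | succ i =>
      have h1 : ((n + 1 : ℕ) : ℤ) - 2 * ((i + 1 : ℕ) : ℤ) + 1 = (n : ℤ) - 2 * (i : ℕ) := by
        push_cast; ring
      have h2 : ((n + 1 : ℕ) : ℤ) - 2 * ((i + 1 : ℕ) : ℤ) - 1 = (n : ℤ) - 2 * (i + 1 : ℕ) := by
        push_cast; ring
      rw [h1, h2, ih, ih, Nat.choose_succ_succ]
      push_cast
      ring

lemma z_even (j : ℕ) : z (2 * j) 0 = (Nat.centralBinom j : ℤ) := by
  have := z_closed (2 * j) j
  rw [show ((2 * j : ℕ) : ℤ) - 2 * (j : ℤ) = 0 by push_cast; ring] at this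
  exact this

lemma z_odd_aux (n : ℕ) (m : ℤ) (h : ¬ Even ((n : ℤ) + m)) : z n m = 0 := by
  induction n generalizing m with
  | zero =>
    have : m ≠ 0 := by rintro rfl; simp at h
    simp [z, this]
  | succ n ih =>
    simp only [z]
    rw [ih, ih, add_zero]
    · intro h'; apply h; push_cast
      rw [Int.even_iff] at h' ⊢; omega
    · intro h'; apply h; push_cast
      rw [Int.even_iff] at h' ⊢; omega

lemma z_rec (n : ℕ) : ((n : ℤ) + 2) * z (n + 2) 0 = 4 * ((n : ℤ) + 1) * z n 0 := by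
  rcases Nat.even_or_odd' n with ⟨j, rfl | rfl⟩
  · have h := Nat.succ_mul_centralBinom_succ j
    have h1 : 2 * j + 2 = 2 * (j + 1) := by ring
    rw [h1, z_even, z_even]
    have h2 : ((j : ℤ) + 1) * (Nat.centralBinom (j + 1) : ℤ) = 2 * (2 * j + 1) * Nat.centralBinom j := by
      exact_mod_cast h
    push_cast
    linear_combination 2 * h2
  · rw [z_odd_aux (2 * j + 1) 0, z_odd_aux (2 * j + 1 + 2) 0]
    · simp
    · rw [Int.even_iff]; push_cast; omega
    · rw [Int.even_iff]; push_cast; omega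

open PowerSeries in
/-- generating function of the walk counts -/
noncomputable def ZZ : PowerSeries ℚ := PowerSeries.mk fun n => (z n 0 : ℚ)

open PowerSeries in
lemma ZZ_ode : (1 - 4 * (X : PowerSeries ℚ) ^ 2) * derivative ℚ ZZ = 4 * X * ZZ := by
  ext n
  have e1 : (1 - 4 * (X : PowerSeries ℚ) ^ 2) * derivative ℚ ZZ =
      derivative ℚ ZZ - C (4 : ℚ) * (X ^ 2 * derivative ℚ ZZ) := by
    have : (4 : PowerSeries ℚ) = C (4 : ℚ) := (map_ofNat (C : ℚ →+* PowerSeries ℚ) 4).symm
    rw [this]; ring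
  have e2 : 4 * (X : PowerSeries ℚ) * ZZ = C (4 : ℚ) * (X ^ 1 * ZZ) := by
    have : (4 : PowerSeries ℚ) = C (4 : ℚ) := (map_ofNat (C : ℚ →+* PowerSeries ℚ) 4).symm
    rw [this]; ring
  rw [e1, e2, map_sub, coeff_C_mul, coeff_C_mul, coeff_X_pow_mul', coeff_X_pow_mul',
    coeff_derivative]
  rcases n with _ | _ | n
  · have h1 : z 1 0 = 0 := z_odd_aux 1 0 (by decide)
    simp [ZZ, h1]
  · have h := z_rec 0
    have h' : ((0 : ℚ) + 2) * z 2 0 = 4 * (0 + 1) * z 0 0 := by exact_mod_cast h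
    simp only [ZZ, coeff_mk]
    norm_num
    norm_num at h'
    linarith
  · have h := z_rec (n + 1)
    have h' : (((n : ℚ) + 1) + 2) * z (n + 1 + 2) 0 = 4 * ((n + 1) + 1) * z (n + 1) 0 := by
      exact_mod_cast h
    have h3 : 2 ≤ n + 1 + 1 := by omega
    have h4 : 1 ≤ n + 1 + 1 := by omega
    simp only [if_pos h3, if_pos h4, ZZ, coeff_mk, coeff_derivative]
    have h5 : n + 1 + 1 - 2 = n := by omega
    have h6 : n + 1 + 1 - 1 = n + 1 := by omega
    rw [h5, h6]
    push_cast
    have h7 : (z (n + 1 + 1 + 1) 0 : ℚ) = z (n + 1 + 2) 0 := rfl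
    rw [h7]
    linear_combination h'

open PowerSeries in
lemma ZZ_sq : (1 - 4 * (X : PowerSeries ℚ) ^ 2) * ZZ ^ 2 = 1 := by
  apply derivative.ext
  · have h := ZZ_ode
    have h4 : derivative ℚ (4 : PowerSeries ℚ) = 0 := by
      have : (4 : PowerSeries ℚ) = C (4 : ℚ) := (map_ofNat (C : ℚ →+* PowerSeries ℚ) 4).symm
      rw [this, derivative_C]
    rw [Derivation.leibniz, Derivation.map_one_eq_zero, map_sub, Derivation.map_one_eq_zero,
      Derivation.leibniz, h4, Derivation.leibniz_pow, Derivation.leibniz_pow, derivative_X]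
    simp only [smul_eq_mul, nsmul_eq_mul, Nat.cast_ofNat]
    linear_combination (2 * ZZ) * h
  · simp [ZZ, z]

open PowerSeries in
lemma F_eq : (PowerSeries.mk fun n => (u n 0 : ℚ)) * (1 - 2 * X) = 1 + 4 * X * ZZ := by
  have e1 : (PowerSeries.mk fun n => (u n 0 : ℚ)) * (1 - 2 * X) =
      (PowerSeries.mk fun n => (u n 0 : ℚ)) - C (2 : ℚ) * (X ^ 1 * PowerSeries.mk fun n => (u n 0 : ℚ)) := by
    have : (2 : PowerSeries ℚ) = C (2 : ℚ) := (map_ofNat (C : ℚ →+* PowerSeries ℚ) 2).symm
    rw [this]; ring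
  have e2 : 4 * (X : PowerSeries ℚ) * ZZ = C (4 : ℚ) * (X ^ 1 * ZZ) := by
    have : (4 : PowerSeries ℚ) = C (4 : ℚ) := (map_ofNat (C : ℚ →+* PowerSeries ℚ) 4).symm
    rw [this]; ring
  rw [e1, e2]
  ext n
  rw [map_sub, map_add, coeff_C_mul, coeff_C_mul, coeff_X_pow_mul', coeff_X_pow_mul', coeff_one]
  cases n with
  | zero => simp [u]
  | succ n =>
    have h : (u (n + 1) 0 : ℚ) = 2 * u n 0 + 4 * z n 0 := by exact_mod_cast u_succ n 0
    simp only [coeff_mk, ZZ]
    rw [h]
    simp

theorem not_rational (P Q : Polynomial ℚ) (hQ : Q ≠ 0)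
    (h : (Q : PowerSeries ℚ) * (PowerSeries.mk fun n => (u n 0 : ℚ)) = (P : PowerSeries ℚ)) :
    False := by
  have hF := F_eq
  set F : PowerSeries ℚ := PowerSeries.mk fun n => (u n 0 : ℚ) with hFdef
  -- polynomials
  let S : Polynomial ℚ := 4 * Polynomial.X * Q
  let R : Polynomial ℚ := P * (1 - 2 * Polynomial.X) - Q
  have h1 : (S : PowerSeries ℚ) * ZZ = (R : PowerSeries ℚ) := by
    simp only [S, R, Polynomial.coe_mul, Polynomial.coe_sub, Polynomial.coe_X, Polynomial.coe_one,
      ← h]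
    have e4 : ((4 : Polynomial ℚ) : PowerSeries ℚ) = 4 := by
      exact map_ofNat (Polynomial.coeToPowerSeries.ringHom (R := ℚ)) 4
    have e2 : ((2 : Polynomial ℚ) : PowerSeries ℚ) = 2 := by
      exact map_ofNat (Polynomial.coeToPowerSeries.ringHom (R := ℚ)) 2
    rw [e4, e2]
    linear_combination -(Q : PowerSeries ℚ) * hF
  have h2 : S ^ 2 = R ^ 2 * (1 - 4 * Polynomial.X ^ 2) := by
    apply Polynomial.coe_injective ℚ
    have e4 : ((4 : Polynomial ℚ) : PowerSeries ℚ) = 4 := by
      exact map_ofNat (Polynomial.coeToPowerSeries.ringHom (R := ℚ)) 4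
    simp only [Polynomial.coe_mul, Polynomial.coe_sub, Polynomial.coe_X, Polynomial.coe_one,
      Polynomial.coe_pow, e4]
    rw [← h1]
    linear_combination -(S : PowerSeries ℚ) ^ 2 * ZZ_sq
  have hS : S ≠ 0 := by
    simp only [S]
    refine mul_ne_zero (mul_ne_zero ?_ Polynomial.X_ne_zero) hQ
    norm_num
  have hR : R ≠ 0 := by
    intro h0
    rw [h0] at h2
    simp at h2
    exact hS h2
  have hfac : (1 - 4 * Polynomial.X ^ 2 : Polynomial ℚ) =
      (Polynomial.X - Polynomial.C (1 / 2)) * (-4 * (Polynomial.X + Polynomial.C (1 / 2))) := by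
    have hc : (Polynomial.C (1 / 2) : Polynomial ℚ) * Polynomial.C (1 / 2) = Polynomial.C (1 / 4) := by
      rw [← Polynomial.C_mul]; norm_num
    have hc2 : (4 : Polynomial ℚ) * Polynomial.C (1 / 4) = 1 := by
      have : (4 : Polynomial ℚ) = Polynomial.C 4 := (map_ofNat Polynomial.C 4).symm
      rw [this, ← Polynomial.C_mul]; norm_num
    linear_combination -4 * hc - hc2
  have hmul : (1 - 4 * Polynomial.X ^ 2 : Polynomial ℚ).rootMultiplicity (1 / 2) = 1 := by
    have hne : (-4 * (Polynomial.X + Polynomial.C (1 / 2)) : Polynomial ℚ) ≠ 0 := by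
      intro h0
      have := congrArg (Polynomial.eval (1 / 2)) h0
      norm_num at this
    rw [hfac, Polynomial.rootMultiplicity_mul (mul_ne_zero (Polynomial.X_sub_C_ne_zero _) hne),
      Polynomial.rootMultiplicity_X_sub_C_self, Polynomial.rootMultiplicity_eq_zero]
    intro hr
    have : Polynomial.eval (1 / 2) (-4 * (Polynomial.X + Polynomial.C (1 / 2)) : Polynomial ℚ) = 0 := hr
    norm_num at this
  have hne : (1 - 4 * Polynomial.X ^ 2 : Polynomial ℚ) ≠ 0 := by
    intro h0
    rw [h0] at hmul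
    simp at hmul
  have h3 := congrArg (Polynomial.rootMultiplicity (1 / 2)) h2
  rw [Polynomial.rootMultiplicity_mul (mul_ne_zero (pow_ne_zero 2 hR) hne), hmul,
    pow_two, pow_two, Polynomial.rootMultiplicity_mul (mul_ne_zero hS hS),
    Polynomial.rootMultiplicity_mul (mul_ne_zero hR hR)] at h3
  omega

end Pool.Agent.X277.CD
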